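import Pool.Agent.Run7.h376.FP.Gen

/-!
# Project FP (helper943): asymptotics for OUTF and INNF
-/

set_option autoImplicit false
open MeasureTheory ProbabilityTheory Filter Set
open scoped ENNReal Pointwise Topology

namespace Run7.h376.FP

open Pool.Agent.N662.FP Run7.h943.FP

theorem evK (K : ℝ) {a b : ℝ} (hab : a < b) : ∀ᶠ n : ℕ in atTop, K * (n : ℝ) ^ a ≤ (n : ℝ) ^ b := by
  have h1 : Tendsto (fun n : ℕ => (n : ℝ) ^ (b - a)) atTop atTop :=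
    (tendsto_rpow_atTop (sub_pos.2 hab)).comp tendsto_natCast_atTop_atTop
  filter_upwards [h1.eventually_ge_atTop K, eventually_ge_atTop 1] with n h2 h3
  have hn : (0 : ℝ) < n := by exact_mod_cast h3
  have h4 : (n : ℝ) ^ b = (n : ℝ) ^ (b - a) * (n : ℝ) ^ a := by
    rw [← Real.rpow_add hn]
    congr 1
    ring
  rw [h4]
  exact mul_le_mul_of_nonneg_right h2 (by positivity)

/-- the change of measure costs a constant factor -/
theorem dens {n : ℕ} (hn : 2 ≤ n) {k : ℕ}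
    (hk : (k : ℝ) ≤ 4 * ((2 * ((8 * n : ℕ) : ℝ) + 1) * (4 * (n : ℝ) ^ (3 / 5 : ℝ) + 1))) :
    (1 / (1 - ((n : ℝ) ^ (-(4 / 5) : ℝ)) ^ 2)) ^ k ≤ Real.exp 680 := by
  have hn2 : (2 : ℝ) ≤ n := by exact_mod_cast hn
  have hn0 : (0 : ℝ) < n := by linarith
  have hn1 : (1 : ℝ) ≤ n := by linarith
  obtain ⟨x, hx⟩ : ∃ x, x = ((n : ℝ) ^ (-(4 / 5) : ℝ)) ^ 2 := ⟨_, rfl⟩
  have hx' : x = (n : ℝ) ^ (-(8 / 5) : ℝ) := by
    rw [hx, ← Real.rpow_natCast, ← Real.rpow_mul hn0.le]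
    norm_num
  have hx0 : 0 < x := by rw [hx']; positivity
  have hx1 : x ≤ 1 / 2 := by
    rw [hx']
    calc (n : ℝ) ^ (-(8 / 5) : ℝ) ≤ (n : ℝ) ^ (-1 : ℝ) := Real.rpow_le_rpow_of_exponent_le hn1 (by norm_num)
      _ = 1 / n := by rw [Real.rpow_neg_one, one_div]
      _ ≤ 1 / 2 := one_div_le_one_div_of_le (by norm_num) hn2
  rw [← hx]
  have h1 : 1 / (1 - x) ≤ Real.exp (2 * x) := by
    have h2 : 1 / (1 - x) = x / (1 - x) + 1 := by
      have : 1 - x ≠ 0 := by linarith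
      field_simp
      ring
    rw [h2]
    refine (Real.add_one_le_exp _).trans (Real.exp_le_exp.2 ?_)
    rw [div_le_iff₀ (by linarith)]
    nlinarith
  have h2 : (0 : ℝ) ≤ 1 / (1 - x) := by
    apply div_nonneg (by norm_num)
    linarith
  refine (pow_le_pow_left₀ h2 h1 k).trans ?_
  rw [← Real.exp_nat_mul]
  apply Real.exp_le_exp.2
  have h3 : (1 : ℝ) ≤ (n : ℝ) ^ (3 / 5 : ℝ) := Real.one_le_rpow hn1 (by norm_num)
  have h4 : (k : ℝ) ≤ 340 * (n : ℝ) ^ (8 / 5 : ℝ) := by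
    refine hk.trans ?_
    push_cast
    have h5 : (n : ℝ) ^ (8 / 5 : ℝ) = n * (n : ℝ) ^ (3 / 5 : ℝ) := by
      have : (8 / 5 : ℝ) = 1 + 3 / 5 := by norm_num
      rw [this, Real.rpow_add hn0, Real.rpow_one]
    rw [h5]
    have h6 : (2 * (8 * (n : ℝ)) + 1) * (4 * (n : ℝ) ^ (3 / 5 : ℝ) + 1) ≤ (17 * n) * (5 * (n : ℝ) ^ (3 / 5 : ℝ)) := by
      apply mul_le_mul (by linarith) (by linarith) (by positivity) (by positivity)
    linarith
  calc (k : ℝ) * (2 * x) ≤ 340 * (n : ℝ) ^ (8 / 5 : ℝ) * (2 * x) := mul_le_mul_of_nonneg_right h4 (by positivity)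
    _ = 680 * ((n : ℝ) ^ (8 / 5 : ℝ) * x) := by ring
    _ = 680 := by
      rw [hx', ← Real.rpow_add hn0]
      norm_num

theorem evA (C χ χ' m : ℝ) (hC : 0 < C) (h0 : 0 < χ) (h1 : χ < χ') (h2 : χ' < 1) (hm : 0 < m) :
    ∀ᶠ n : ℕ in atTop, ∀ s : ℝ, m * n + (n : ℝ) ^ χ' ≤ s → m * n + 1 ≤ s - C * (1 + s) ^ χ := by
  have hS : ∀ᶠ s : ℝ in atTop, C * (1 + s) ^ χ ≤ s / 2 := by
    have h3 := (tendsto_rpow_neg_atTop (show 0 < 1 - χ by linarith)).eventually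
      (Iic_mem_nhds (show (0 : ℝ) < 1 / (4 * C) by positivity))
    have h4 := (tendsto_atTop_add_const_left atTop (1 : ℝ) tendsto_id).eventually h3
    filter_upwards [h4, eventually_ge_atTop 1] with s h5 h6
    have h7 : (1 + s) ^ (-(1 - χ)) ≤ 1 / (4 * C) := h5
    have h10 : (1 + s) ^ χ = (1 + s) ^ (-(1 - χ)) * (1 + s) := by
      have e : (1 + s) ^ (-(1 - χ)) * (1 + s) = (1 + s) ^ (-(1 - χ)) * (1 + s) ^ (1 : ℝ) := by rw [Real.rpow_one]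
      rw [e, ← Real.rpow_add (by linarith)]
      congr 1
      ring
    rw [h10]
    have h8 := mul_le_mul_of_nonneg_left (mul_le_mul_of_nonneg_right h7 (show 0 ≤ 1 + s by linarith)) hC.le
    have h9 : C * (1 / (4 * C) * (1 + s)) = (1 + s) / 4 := by field_simp
    rw [h9] at h8
    linarith
  obtain ⟨S0, hS0⟩ := eventually_atTop.1 hS
  have hg := tendsto_natCast_atTop_atTop (R := ℝ)
  filter_upwards [evK (C * (2 * m + 3) ^ χ + 1) h1, hg.eventually_ge_atTop (S0 / (2 * m + 2)),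
    hg.eventually_ge_atTop 1] with n e1 e2 e3 s hs
  have hn0 : (0 : ℝ) < n := by linarith
  have hχ1 : 1 ≤ (n : ℝ) ^ χ := Real.one_le_rpow e3 h0.le
  rcases le_total ((2 * m + 2) * n) s with h | h
  · have e4 : S0 ≤ s := by
      rw [div_le_iff₀ (by linarith)] at e2
      linarith
    have e5 := hS0 s e4
    have : (m + 1) * n ≤ s / 2 := by linarith
    linarith
  · have e5 : 0 ≤ s := by
      refine le_trans ?_ hs
      positivity
    have e4 : (1 + s) ^ χ ≤ (2 * m + 3) ^ χ * (n : ℝ) ^ χ := by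
      rw [← Real.mul_rpow (by linarith) hn0.le]
      apply Real.rpow_le_rpow (by linarith) _ h0.le
      linarith
    have e6 := mul_le_mul_of_nonneg_left e4 hC.le
    rw [add_mul, one_mul, mul_assoc] at e1
    linarith

theorem evB (C χ χ' m : ℝ) (hC : 0 < C) (h0 : 0 < χ) (h1 : χ < 1 / 5) (h2 : χ' < 1) (hm : 0 < m) :
    ∀ᶠ n : ℕ in atTop, ∀ s : ℝ, m * (n - 1) ≤ s → s ≤ m * n + (n : ℝ) ^ χ' →
      (1 - (n : ℝ) ^ (-(4 / 5) : ℝ)) * (m * n + 1) ≤ s - C * (1 + s) ^ χ := by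
  filter_upwards [evK ((m + 1 + C * (m + 2) ^ χ) / m) h1, eventually_ge_atTop 1] with n e1 e2 s hs1 hs2
  have hn1 : (1 : ℝ) ≤ n := by exact_mod_cast e2
  have hn0 : (0 : ℝ) < n := by linarith
  have hχ1 : 1 ≤ (n : ℝ) ^ χ := Real.one_le_rpow hn1 h0.le
  have hχ' : (n : ℝ) ^ χ' ≤ n := by
    calc (n : ℝ) ^ χ' ≤ (n : ℝ) ^ (1 : ℝ) := Real.rpow_le_rpow_of_exponent_le hn1 h2.le
      _ = n := Real.rpow_one _
  have hs0 : 0 ≤ s := le_trans (mul_nonneg hm.le (by linarith)) hs1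
  have e4 : (1 + s) ^ χ ≤ (m + 2) ^ χ * (n : ℝ) ^ χ := by
    rw [← Real.mul_rpow (by linarith) hn0.le]
    apply Real.rpow_le_rpow (by linarith) _ h0.le
    linarith
  have e6 := mul_le_mul_of_nonneg_left e4 hC.le
  have e7 : (n : ℝ) ^ (-(4 / 5) : ℝ) * n = (n : ℝ) ^ (1 / 5 : ℝ) := by
    have : (n : ℝ) ^ (-(4 / 5) : ℝ) * n = (n : ℝ) ^ (-(4 / 5) : ℝ) * (n : ℝ) ^ (1 : ℝ) := by rw [Real.rpow_one]
    rw [this, ← Real.rpow_add hn0]
    norm_num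
  have e8 : 0 < (n : ℝ) ^ (-(4 / 5) : ℝ) := by positivity
  have e9 : (1 - (n : ℝ) ^ (-(4 / 5) : ℝ)) * (m * n + 1) = m * n + 1 - m * ((n : ℝ) ^ (-(4 / 5) : ℝ) * n) -
      (n : ℝ) ^ (-(4 / 5) : ℝ) := by ring
  rw [e9, e7]
  rw [div_mul_eq_mul_div, div_le_iff₀ hm] at e1
  have e10 : (m + 1) * 1 ≤ (m + 1) * (n : ℝ) ^ χ := mul_le_mul_of_nonneg_left hχ1 (by linarith)
  have e11 : (m + 1 + C * (m + 2) ^ χ) * (n : ℝ) ^ χ = (m + 1) * (n : ℝ) ^ χ + C * ((m + 2) ^ χ * (n : ℝ) ^ χ) := by ring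
  rw [e11] at e1
  linarith

theorem evC (C q p m : ℝ) (hC : 0 < C) (hp : p < q) (hq : 0 < q) (hm : 0 < m) :
    ∀ᶠ n : ℕ in atTop, C * (1 + m * (n - 1)) ^ (-q) < (n : ℝ) ^ (-p) := by
  filter_upwards [evK (C * (m / 2) ^ (-q) + 1) (show -q < -p by linarith), eventually_ge_atTop 2] with n e1 e2
  have hn2 : (2 : ℝ) ≤ n := by exact_mod_cast e2
  have hn0 : (0 : ℝ) < n := by linarith
  have e3 : (1 + m * ((n : ℝ) - 1)) ^ (-q) ≤ (m / 2) ^ (-q) * (n : ℝ) ^ (-q) := by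
    rw [← Real.mul_rpow (by positivity) hn0.le]
    apply Real.rpow_le_rpow_of_nonpos (by positivity) _ (by linarith)
    nlinarith
  have e4 := mul_le_mul_of_nonneg_left e3 hC.le
  have e5 : 0 < (n : ℝ) ^ (-q) := by positivity
  rw [add_mul, one_mul, mul_assoc] at e1
  linarith

end Run7.h376.FP
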