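import Pool.Agent.Run7.h943.FP.Stm

/-!
# Project FP (helper943): auxiliary facts
-/

set_option autoImplicit false
open MeasureTheory ProbabilityTheory Filter Set
open scoped ENNReal Pointwise Topology

namespace Run7.h376.FP

open Pool.Agent.N662.FP Run7.h943.FP

theorem box_card (R : ℕ) : (box R).card = (2 * R + 1) ^ 2 := by
  unfold box
  rw [Finset.card_product, Int.card_Icc]
  have : ((R : ℤ) + 1 - -(R : ℤ)).toNat = 2 * R + 1 := by omega
  rw [this]
  ring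

theorem mem_box {R : ℕ} {z : ℤ × ℤ} : z ∈ box R ↔ |z.1| ≤ R ∧ |z.2| ≤ R := by
  unfold box
  rw [Finset.mem_product, Finset.mem_Icc, Finset.mem_Icc, abs_le, abs_le]

theorem eu_nonneg (x : ℝ × ℝ) : 0 ≤ eu x := Real.sqrt_nonneg _

theorem abs_fst_le (x : ℝ × ℝ) : |x.1| ≤ eu x := by
  unfold eu
  rw [← Real.sqrt_sq_eq_abs]
  exact Real.sqrt_le_sqrt (by nlinarith [sq_nonneg x.2])

theorem abs_snd_le (x : ℝ × ℝ) : |x.2| ≤ eu x := by
  unfold eu
  rw [← Real.sqrt_sq_eq_abs]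
  exact Real.sqrt_le_sqrt (by nlinarith [sq_nonneg x.1])

theorem al_le {y : ℝ × ℝ} (hy : y.1 ^ 2 + y.2 ^ 2 = 1) (x : ℝ × ℝ) : al y x ≤ eu x := by
  unfold eu al
  apply Real.le_sqrt_of_sq_le
  have h : (x.1 ^ 2 + x.2 ^ 2) * (y.1 ^ 2 + y.2 ^ 2) = (x.1 * y.1 + x.2 * y.2) ^ 2 + (x.1 * y.2 - x.2 * y.1) ^ 2 := by ring
  rw [hy, mul_one] at h
  rw [h]
  nlinarith [sq_nonneg (x.1 * y.2 - x.2 * y.1)]

/-- outside of the box -/
theorem eu_ge {R : ℕ} {z : ℤ × ℤ} (hz : z ∉ box R) : (R : ℝ) + 1 ≤ eu (em z) := by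
  rw [mem_box, not_and_or, not_le, not_le] at hz
  rcases hz with h | h
  · have h1 : (R : ℤ) + 1 ≤ |z.1| := by omega
    have h2 : (R : ℝ) + 1 ≤ |(z.1 : ℝ)| := by exact_mod_cast h1
    exact h2.trans (abs_fst_le (em z))
  · have h1 : (R : ℤ) + 1 ≤ |z.2| := by omega
    have h2 : (R : ℝ) + 1 ≤ |(z.2 : ℝ)| := by exact_mod_cast h1
    exact h2.trans (abs_snd_le (em z))

section
variable {Ω : Type} [MeasureSpace Ω] [IsProbabilityMeasure (volume : Measure Ω)]

/-- subadditivity in the form which is used here -/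
theorem sub3 {A B E N : Set Ω} (hN : (volume : Measure Ω) N = 0) (h : A ⊆ B ∪ E ∪ N) :
    (volume : Measure Ω).real A ≤ (volume : Measure Ω).real B + (volume : Measure Ω).real E := by
  have h1 : (volume : Measure Ω).real A ≤ (volume : Measure Ω).real (B ∪ E ∪ N) := measureReal_mono h
  have h2 := measureReal_union_le (μ := (volume : Measure Ω)) (B ∪ E) N
  have h3 := measureReal_union_le (μ := (volume : Measure Ω)) B E
  have h4 : (volume : Measure Ω).real N = 0 := by rw [measureReal_def, hN, ENNReal.toReal_zero]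
  linarith

theorem null_neg {X : Sym2 (ℤ × ℤ) → Ω → ℝ} (hX : Iid X) :
    (volume : Measure Ω) {ω | ¬ ∀ e, 0 ≤ env X ω e} = 0 := cAE Ω X hX

end

/-- `t² exp (-t/8)` is small -/
theorem evt_exp (K : ℝ) : ∀ᶠ t : ℝ in atTop, K * t ^ 2 * Real.exp (1 - t / 8) ≤ 1 / 4 := by
  have h1 := Real.tendsto_pow_mul_exp_neg_atTop_nhds_zero 2
  have h2 : Tendsto (fun t : ℝ => t / 8) atTop atTop := tendsto_id.atTop_div_const (by norm_num)
  have h3 := ((h1.comp h2).const_mul (K * 64 * Real.exp 1))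
  rw [mul_zero] at h3
  have h4 := h3.eventually (Iic_mem_nhds (show (0 : ℝ) < 1 / 4 by norm_num))
  filter_upwards [h4] with t ht
  have ht' : K * 64 * Real.exp 1 * ((t / 8) ^ 2 * Real.exp (-(t / 8))) ≤ 1 / 4 := ht
  refine le_trans (le_of_eq ?_) ht'
  rw [sub_eq_add_neg, Real.exp_add]
  ring

end Run7.h376.FP
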