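import Pool.Agent.Run7.h376.FP.Gen

/-!
# Project FP (helper943): piece HALF
-/

set_option autoImplicit false
open MeasureTheory ProbabilityTheory Filter Set
open scoped ENNReal Pointwise Topology

namespace Run7.h376.FP

open Pool.Agent.N662.FP Run7.h943.FP

theorem evt_log (C : ℝ) (hC : 1 ≤ C) : ∀ᶠ t : ℝ in atTop, Real.log (2 * (C * t ^ 4)) ≤ t ^ (1 / 2 : ℝ) / 64 := by
  have h1 := (isLittleO_log_rpow_atTop (show (0 : ℝ) < 1 / 2 by norm_num)).bound (show (0 : ℝ) < 1 / 512 by norm_num)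
  have h2 := (tendsto_rpow_atTop (show (0 : ℝ) < 1 / 2 by norm_num)).eventually_ge_atTop (128 * Real.log (2 * C))
  filter_upwards [h1, h2, eventually_ge_atTop 1] with t h1 h2 h3
  have h4 : 0 ≤ Real.log t := Real.log_nonneg h3
  have h5 : 0 ≤ t ^ (1 / 2 : ℝ) := by positivity
  rw [Real.norm_of_nonneg h4, Real.norm_of_nonneg h5] at h1
  have e : 2 * (C * t ^ 4) = (2 * C) * t ^ 4 := by ring
  rw [e, Real.log_mul (by positivity) (by positivity), Real.log_pow]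
  push_cast
  linarith

theorem t_HALF (hSPL : S_SPL) (hTWO : S_TWO) (hTRL : S_TRL) : S_HALF := by
  intro Ω _ _ X hX μ hG y m hy
  obtain ⟨C, t1, hC, ht1, hS⟩ := hSPL Ω X hX μ hG y m hy
  obtain ⟨t2, ht2⟩ := eventually_atTop.1 (evt_log C hC)
  refine ⟨max t1 t2, ht1.trans (le_max_left _ _), fun n t hn ht hQ => ?_⟩
  have h1 : t1 ≤ t := (le_max_left _ _).trans ht
  have h2 : t2 ≤ t := (le_max_right _ _).trans ht
  have ht1' : 1 ≤ t := ht1.trans h1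
  have ht0 : 0 < t := by linarith
  obtain ⟨u, hu1, hu2⟩ := hS 2 n t (by norm_num) hn h1 (by push_cast; exact hQ)
  refine ⟨u, hu1, ?_⟩
  push_cast at hu2
  have hCt : 0 < C * t ^ 4 := by positivity
  have hCt1 : 1 ≤ C * t ^ 4 := by
    have : (1 : ℝ) ≤ t ^ 4 := one_le_pow₀ ht1'
    nlinarith
  obtain ⟨ℓ, hℓ⟩ : ∃ ℓ, ℓ = Real.log (2 * (C * t ^ 4)) := ⟨_, rfl⟩
  have hℓ0 : 0 ≤ ℓ := by rw [hℓ]; exact Real.log_nonneg (by linarith)
  have hℓ1 : ℓ ≤ t ^ (1 / 2 : ℝ) / 64 := by rw [hℓ]; exact ht2 t h2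
  obtain ⟨b, hb⟩ : ∃ b, b = √(t / 2) := ⟨_, rfl⟩
  obtain ⟨δ, hδ⟩ : ∃ δ, δ = √(2 * ℓ) := ⟨_, rfl⟩
  have hb0 : 0 ≤ b := by rw [hb]; positivity
  have hδ0 : 0 ≤ δ := by rw [hδ]; positivity
  have hb2 : b ^ 2 = t / 2 := by rw [hb, Real.sq_sqrt (by positivity)]
  have hδ2 : δ ^ 2 = 2 * ℓ := by rw [hδ, Real.sq_sqrt (by positivity)]
  have h3 := hTWO Ω X hX u (b + δ) b hb0 (by linarith)
  have h4 : Real.exp (-((b + δ - b) ^ 2 / 2)) = 1 / (2 * (C * t ^ 4)) := by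
    have e : (b + δ - b) ^ 2 / 2 = ℓ := by
      rw [add_sub_cancel_left, hδ2]
      ring
    rw [e, hℓ, Real.exp_neg, Real.exp_log (by positivity), one_div]
  rw [h4] at h3
  have h5 : 1 / (C * t ^ 4) ≤ (volume : Measure Ω).real {ω | D (env X ω) 0 u ≤ b ^ 2} := by
    refine hu2.trans (measureReal_mono ?_)
    intro ω hω
    have hω' : D (env X ω) 0 u < t / 2 := hω
    show D (env X ω) 0 u ≤ b ^ 2
    rw [hb2]
    exact hω'.le
  have h6 : (volume : Measure Ω).real {ω | (b + δ) ^ 2 ≤ D (env X ω) 0 u} ≤ 1 / 2 := by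
    have h7 : (volume : Measure Ω).real {ω | (b + δ) ^ 2 ≤ D (env X ω) 0 u} * (1 / (C * t ^ 4)) ≤ 1 / (2 * (C * t ^ 4)) :=
      (mul_le_mul_of_nonneg_left h5 measureReal_nonneg).trans h3
    have h8 : 1 / (2 * (C * t ^ 4)) = 1 / 2 * (1 / (C * t ^ 4)) := by
      field_simp
    rw [h8] at h7
    exact le_of_mul_le_mul_right h7 (by positivity)
  have h9 := (hTRL Ω X hX 0 u ((b + δ) ^ 2)).2
  have h10 : (b + δ) ^ 2 ≤ t / 2 + t ^ (3 / 4 : ℝ) := by
    have e1 : (b + δ) ^ 2 = t / 2 + (2 * b * δ + 2 * ℓ) := by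
      rw [add_sq, hb2, hδ2]
      ring
    rw [e1]
    obtain ⟨r, hr⟩ : ∃ r, r = t ^ (1 / 4 : ℝ) := ⟨_, rfl⟩
    have hr1 : 1 ≤ r := by rw [hr]; exact Real.one_le_rpow ht1' (by norm_num)
    have hr0 : 0 < r := by linarith
    have e2 : t ^ (1 / 2 : ℝ) = r ^ 2 := by
      rw [hr, ← Real.rpow_natCast, ← Real.rpow_mul ht0.le]
      norm_num
    have e3 : t ^ (3 / 4 : ℝ) = r ^ 3 := by
      rw [hr, ← Real.rpow_natCast, ← Real.rpow_mul ht0.le]
      norm_num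
    have e4 : t = r ^ 4 := by
      rw [hr, ← Real.rpow_natCast, ← Real.rpow_mul ht0.le]
      norm_num
    rw [e2] at hℓ1
    rw [e3]
    have e5 : b ≤ r ^ 2 := by
      rw [hb, Real.sqrt_le_left (by positivity)]
      have : r ^ 4 = (r ^ 2) ^ 2 := by ring
      rw [← this, ← e4]
      linarith
    have e6 : δ ≤ r / 4 := by
      rw [hδ, Real.sqrt_le_left (by positivity)]
      have : (r / 4) ^ 2 = r ^ 2 / 16 := by ring
      rw [this]
      linarith [sq_nonneg r]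
    have e7 : b * δ ≤ r ^ 2 * (r / 4) := mul_le_mul e5 e6 hδ0 (by positivity)
    have e8 : r ^ 2 ≤ r ^ 3 := pow_le_pow_right₀ hr1 (by norm_num)
    have e9 : r ^ 2 * (r / 4) = r ^ 3 / 4 := by ring
    rw [e9] at e7
    have e10 : 0 ≤ r ^ 3 := by positivity
    linarith
  have h11 : (volume : Measure Ω).real {ω | D (env X ω) 0 u < (b + δ) ^ 2} ≤
      (volume : Measure Ω).real {ω | D (env X ω) 0 u < t / 2 + t ^ (3 / 4 : ℝ)} := by
    refine measureReal_mono ?_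
    intro ω hω
    exact lt_of_lt_of_le hω h10
  linarith

end Run7.h376.FP
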