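import Pool.Agent.Run7.h376.FP.Asy

/-!
# Project FP (helper943): piece INNF
-/

set_option autoImplicit false
open MeasureTheory ProbabilityTheory Filter Set
open scoped ENNReal Pointwise Topology

namespace Run7.h376.FP

open Pool.Agent.N662.FP Run7.h943.FP

theorem t_INNF (hGEO : Run7.h943.FP.S_GEO) (hPMU : S_PMU) (hCMD : S_CMD) (hEXI : S_EXI) (hIEX : S_IEX) : S_INNF := by
  intro Ω _ _ X hX μ hG y m hy κ A d hκ0 hκ1 hA hd hyp
  have hm := hy.pos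
  have ev1 := hIEX Ω X hX μ hG y m hy κ A d hκ0 hκ1 hA hd hyp (1 / 10) (by norm_num)
  -- the rounding
  obtain ⟨c0, hc0⟩ : ∃ c0 : ℝ, c0 = μ ((1, 0) : ℝ × ℝ) + μ ((0, 1) : ℝ × ℝ) := ⟨_, rfl⟩
  have hc00 : 0 ≤ c0 := by
    rw [hc0]
    exact add_nonneg (apply_nonneg μ _) (apply_nonneg μ _)
  obtain ⟨K', hK'⟩ : ∃ K' : ℝ, K' = 2 * (1 + 1 / d) * A * (m + c0 + 1) ^ (1 - κ) * (400 / m) * (32 * Real.exp 680) :=
    ⟨_, rfl⟩
  have ev2 := evK K' (show 1 - κ < 1 / 5 by linarith)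
  have ev3 : ∀ᶠ n : ℕ in atTop, 5 + 400 * c0 / m ≤ (n : ℝ) ^ (1 / 5 : ℝ) :=
    ((tendsto_rpow_atTop (show (0 : ℝ) < 1 / 5 by norm_num)).comp tendsto_natCast_atTop_atTop).eventually_ge_atTop _
  obtain ⟨n, e1, e2, e3, hn2⟩ := (ev1.and (ev2.and (ev3.and (eventually_ge_atTop 2)))).exists
  have hn2r : (2 : ℝ) ≤ n := by exact_mod_cast hn2
  have hn0 : (0 : ℝ) < n := by linarith
  have hn1 : (1 : ℝ) ≤ n := by linarith
  obtain ⟨g, hg⟩ : ∃ g : ℝ, g = (n : ℝ) ^ (1 / 5 : ℝ) := ⟨_, rfl⟩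
  rw [← hg] at e2 e3
  have hq0 : 0 ≤ 400 * c0 / m := by positivity
  have hg5 : 5 ≤ g := by linarith
  have hgc : c0 ≤ m / 400 * g := by
    have h1 : 400 * c0 / m ≤ g := by linarith
    rw [div_le_iff₀ hm] at h1
    linarith
  obtain ⟨u, hu⟩ : ∃ u : ℤ × ℤ, u = (round ((n : ℝ) * y.1), round ((n : ℝ) * y.2)) := ⟨_, rfl⟩
  have hu1 : |(u.1 : ℝ) - n * y.1| ≤ 1 := by
    rw [hu, abs_sub_comm]
    exact (abs_sub_round _).trans (by norm_num)
  have hu2 : |(u.2 : ℝ) - n * y.2| ≤ 1 := by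
    rw [hu, abs_sub_comm]
    exact (abs_sub_round _).trans (by norm_num)
  have e1' := e1 u hu1 hu2
  obtain ⟨s, hs⟩ : ∃ s, s = μ (em u) := ⟨_, rfl⟩
  have hy1 : |y.1| ≤ 1 := by
    rw [← sq_le_one_iff_abs_le_one]
    nlinarith [hy.unit, sq_nonneg y.2]
  have hy2 : |y.2| ≤ 1 := by
    rw [← sq_le_one_iff_abs_le_one]
    nlinarith [hy.unit, sq_nonneg y.1]
  have hs1 : m * (n - 2) ≤ s := by
    rw [hs]
    refine le_trans ?_ (hy.ge (em u))
    apply mul_le_mul_of_nonneg_left _ hm.le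
    refine le_trans ?_ (al_le hy.unit (em u))
    have h1 : al y (em u) = n * (y.1 ^ 2 + y.2 ^ 2) + ((u.1 : ℝ) - n * y.1) * y.1 + ((u.2 : ℝ) - n * y.2) * y.2 := by
      unfold al Pool.Agent.N662.FP.em
      ring
    rw [h1, hy.unit, mul_one]
    have h2 : |((u.1 : ℝ) - n * y.1) * y.1| ≤ 1 := by
      rw [abs_mul]
      exact mul_le_one₀ hu1 (abs_nonneg _) hy1
    have h3 : |((u.2 : ℝ) - n * y.2) * y.2| ≤ 1 := by
      rw [abs_mul]
      exact mul_le_one₀ hu2 (abs_nonneg _) hy2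
    have h4 := neg_abs_le (((u.1 : ℝ) - n * y.1) * y.1)
    have h5 := neg_abs_le (((u.2 : ℝ) - n * y.2) * y.2)
    linarith
  have hs2 : s ≤ m * n + c0 := by
    rw [hs]
    have h1 : em u = (n : ℝ) • y + (((u.1 : ℝ) - n * y.1) • ((1, 0) : ℝ × ℝ) + ((u.2 : ℝ) - n * y.2) • ((0, 1) : ℝ × ℝ)) := by
      unfold Pool.Agent.N662.FP.em
      ext <;> simp
    rw [h1]
    refine (map_add_le_add μ _ _).trans ?_
    have h2 : μ ((n : ℝ) • y) = m * n := by
      rw [map_smul_eq_mul, hy.eq, Real.norm_of_nonneg hn0.le]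
      ring
    have h3 : μ (((u.1 : ℝ) - n * y.1) • ((1, 0) : ℝ × ℝ) + ((u.2 : ℝ) - n * y.2) • ((0, 1) : ℝ × ℝ)) ≤ c0 := by
      refine (map_add_le_add μ _ _).trans ?_
      rw [map_smul_eq_mul, map_smul_eq_mul, hc0, Real.norm_eq_abs, Real.norm_eq_abs]
      have h4 := mul_le_mul_of_nonneg_right hu1 (apply_nonneg μ ((1, 0) : ℝ × ℝ))
      have h5 := mul_le_mul_of_nonneg_right hu2 (apply_nonneg μ ((0, 1) : ℝ × ℝ))
      linarith
    linarith
  have hs0 : 0 ≤ s := by rw [hs]; exact apply_nonneg μ _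
  -- the tube
  obtain ⟨K, hK⟩ : ∃ K, K = tube y (8 * n) ((n : ℝ) ^ (3 / 5 : ℝ)) := ⟨_, rfl⟩
  obtain ⟨hge, -⟩ := hGEO y hy.unit
  obtain ⟨h0K, hFc, -, hin, hout, -⟩ := hge (8 * n) ((n : ℝ) ^ (3 / 5 : ℝ)) (by positivity)
  obtain ⟨t, ht⟩ : ∃ t : ℝ, t = m * n + m / 200 * g := ⟨_, rfl⟩
  rw [← hK, ← hg, ← ht] at e1'
  rw [← hK] at h0K hFc hin hout
  obtain ⟨δ, hδ⟩ : ∃ δ : ℝ, δ = (n : ℝ) ^ (-(4 / 5) : ℝ) := ⟨_, rfl⟩
  have hδ0 : 0 < δ := by rw [hδ]; positivity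
  have hδ1 : δ < 1 := by
    rw [hδ]
    exact Real.rpow_lt_one_of_one_lt_of_neg (by linarith) (by norm_num)
  have hδn : δ * n = g := by
    have : δ * n = (n : ℝ) ^ (-(4 / 5) : ℝ) * (n : ℝ) ^ (1 : ℝ) := by rw [hδ, Real.rpow_one]
    rw [this, ← Real.rpow_add hn0, hg]
    norm_num
  obtain ⟨c, hc⟩ : ∃ c : ℝ, c = 1 + δ := ⟨_, rfl⟩
  have htc : t ≤ c * s := by
    have h1 : c * (m * (n - 2)) ≤ c * s := mul_le_mul_of_nonneg_left hs1 (by rw [hc]; linarith)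
    refine le_trans ?_ h1
    have h2 : c * (m * ((n : ℝ) - 2)) = m * n - 2 * m + m * (δ * n) - 2 * m * δ := by rw [hc]; ring
    rw [h2, hδn, ht]
    have h3 : m * δ ≤ m * 1 := mul_le_mul_of_nonneg_left hδ1.le hm.le
    have h4 : m * 5 ≤ m * g := mul_le_mul_of_nonneg_left hg5 hm.le
    linarith
  have hsub : {ω | s ≤ D (env X ω) 0 u} ⊆
      {ω | t ≤ D (sc (edg K) c (env X ω)) 0 u} ∪
      {ω | ∃ z ∈ bd K, D (env X ω) 0 z + D (env X ω) z u < t} ∪ {ω | ¬ ∀ e, 0 ≤ env X ω e} := by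
    intro ω hω
    by_cases hneg : ∀ e, 0 ≤ env X ω e
    · left
      by_cases hE : ∃ z ∈ bd K, D (env X ω) 0 z + D (env X ω) z u < t
      · right; exact hE
      · left
        push Not at hE
        have h1 := hEXI (env X ω) hneg K (edg K) c t u (by rw [hc]; linarith) h0K hin
          (fun a ha z hz haz => hE z (hout a ha z hz haz))
        have hω' : s ≤ D (env X ω) 0 u := hω
        have h2 : t ≤ c * D (env X ω) 0 u := htc.trans (mul_le_mul_of_nonneg_left hω' (by rw [hc]; linarith))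
        rw [min_eq_right h2] at h1
        exact h1
    · right; exact hneg
  have h3 := sub3 (null_neg hX) hsub
  have h4 := hPMU Ω (fun ω v => D (env X ω) 0 v) μ hG u
  rw [← hs] at h4
  have he : 0.36 ≤ Real.exp (-1) := by
    rw [Real.exp_neg, ← one_div, le_div_iff₀ (Real.exp_pos _)]
    have := Real.exp_one_lt_d9
    linarith
  obtain ⟨pB, hpB⟩ : ∃ pB, pB = (volume : Measure Ω).real {ω | t ≤ D (sc (edg K) c (env X ω)) 0 u} := ⟨_, rfl⟩
  rw [← hpB] at h3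
  have h5 : 1 / 4 ≤ pB := by
    have h6 : Real.exp (-1) ≤ pB + 1 / 10 := by linarith
    norm_num at he ⊢
    linarith
  have h6 := (hCMD Ω X hX (edg K) c (by rw [hc]; linarith) (by rw [hc]; linarith) u t).1
  rw [← hpB] at h6
  have h7 : (1 / (c * (2 - c))) ^ (edg K).card ≤ Real.exp 680 := by
    have e : c * (2 - c) = 1 - ((n : ℝ) ^ (-(4 / 5) : ℝ)) ^ 2 := by
      rw [hc, ← hδ]
      ring
    rw [e]
    exact dens hn2 hFc
  -- Markov
  have hr0 : 0 < m / 400 * g := by positivity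
  have hr : 0 < A * (1 + s) ^ (1 - κ) := by positivity
  have h8 : (volume : Measure Ω).real {ω | t ≤ D (env X ω) 0 u} ≤
      2 * (1 + 1 / d) * (A * (1 + s) ^ (1 - κ)) / (m / 400 * g) := by
    have h9 := (hG.one u (A * (1 + s) ^ (1 - κ)) d hr hd (by
      have := hyp u
      rw [← hs] at this ⊢
      exact this)).2
    rw [← hs] at h9
    have h10 := mk (fun ω => D (env X ω) 0 u) (hG.int u) s (m / 400 * g) hr0
    have h11 : (volume : Measure Ω).real {ω | t ≤ D (env X ω) 0 u} ≤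
        (volume : Measure Ω).real {ω | m / 400 * g ≤ |D (env X ω) 0 u - s|} := by
      refine measureReal_mono ?_
      intro ω hω
      have hω' : t ≤ D (env X ω) 0 u := hω
      show m / 400 * g ≤ |D (env X ω) 0 u - s|
      refine le_trans ?_ (le_abs_self _)
      rw [ht] at hω'
      linarith
    refine h11.trans (h10.trans ?_)
    exact div_le_div_of_nonneg_right h9 hr0.le
  have h9 : (1 + s) ^ (1 - κ) ≤ (m + c0 + 1) ^ (1 - κ) * (n : ℝ) ^ (1 - κ) := by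
    rw [← Real.mul_rpow (by linarith) hn0.le]
    apply Real.rpow_le_rpow (by linarith) _ (by linarith)
    nlinarith
  have h10 : 32 * (Real.exp 680 * (2 * (1 + 1 / d) * (A * (1 + s) ^ (1 - κ)) / (m / 400 * g))) ≤ 1 := by
    have h11 : 32 * (Real.exp 680 * (2 * (1 + 1 / d) * (A * (1 + s) ^ (1 - κ)) / (m / 400 * g))) ≤
        32 * (Real.exp 680 * (2 * (1 + 1 / d) * (A * ((m + c0 + 1) ^ (1 - κ) * (n : ℝ) ^ (1 - κ))) / (m / 400 * g))) := by
      gcongr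
    refine h11.trans ?_
    have h12 : 32 * (Real.exp 680 * (2 * (1 + 1 / d) * (A * ((m + c0 + 1) ^ (1 - κ) * (n : ℝ) ^ (1 - κ))) / (m / 400 * g))) =
        K' * (n : ℝ) ^ (1 - κ) / g := by
      rw [hK']
      have hg0 : g ≠ 0 := by linarith
      field_simp
    rw [h12, div_le_one (by linarith)]
    exact e2
  have h11 : pB ^ 2 ≤ Real.exp 680 * (2 * (1 + 1 / d) * (A * (1 + s) ^ (1 - κ)) / (m / 400 * g)) :=
    h6.trans (mul_le_mul h7 h8 measureReal_nonneg (Real.exp_pos _).le)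
  have h12 : (1 / 4 : ℝ) ^ 2 ≤ pB ^ 2 := pow_le_pow_left₀ (by norm_num) h5 2
  norm_num at h12
  linarith

end Run7.h376.FP
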