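import Pool.Agent.Run7.h376.FP.Asy

/-!
# Project FP (helper943): piece OUTF
-/

set_option autoImplicit false
open MeasureTheory ProbabilityTheory Filter Set
open scoped ENNReal Pointwise Topology

namespace Run7.h376.FP

open Pool.Agent.N662.FP Run7.h943.FP

theorem t_OUTF (hGEO : Run7.h943.FP.S_GEO) (hCMD : S_CMD) (hEXO : S_EXO) (hPOLY : S_POLY) (hOEX : S_OEX) : S_OUTF := by
  intro Ω _ _ X hX μ hG hTC y m hy χ hχ0 hχ1 hLT
  have hm := hy.pos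
  obtain ⟨χ', hχ'⟩ : ∃ χ' : ℝ, χ' = (χ + 1 / 5) / 2 := ⟨_, rfl⟩
  have hχχ' : χ < χ' := by rw [hχ']; linarith
  have hχ'1 : χ' < 1 / 5 := by rw [hχ']; linarith
  obtain ⟨C₁, hC₁, h₁⟩ := hLT 22 (by norm_num)
  obtain ⟨C₂, hC₂, h₂⟩ := hLT 43 (by norm_num)
  have ev1 := hPOLY Ω X hX μ hG hTC y m hy
  have ev2 := hOEX Ω X hX μ hG y m hy χ χ' 22 hχ0 hχχ' hχ'1 (by norm_num) hLT
  have ev3 := evA C₁ χ χ' m hC₁ hχ0 hχχ' (by linarith) hm
  have ev4 := evB C₂ χ χ' m hC₂ hχ0 hχ1 (by linarith) hm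
  have ev5 := evC C₁ 22 21 m hC₁ (by norm_num) (by norm_num) hm
  have ev6 := evC (4 * Real.exp 680 * C₂) 43 42 m (by positivity) (by norm_num) (by norm_num) hm
  obtain ⟨n, ⟨u, hu1, hu2⟩, e2, e3, e4, e5, e6, hn2⟩ :=
    (ev1.and (ev2.and (ev3.and (ev4.and (ev5.and (ev6.and (eventually_ge_atTop 2))))))).exists
  have hn2r : (2 : ℝ) ≤ n := by exact_mod_cast hn2
  have hn0 : (0 : ℝ) < n := by linarith
  have hn1 : (1 : ℝ) ≤ n := by linarith
  obtain ⟨s, hs⟩ : ∃ s, s = μ (em u) := ⟨_, rfl⟩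
  have hs1 : m * (n - 1) ≤ s := by
    rw [hs]
    refine le_trans ?_ (hy.ge (em u))
    exact mul_le_mul_of_nonneg_left (hu1.trans (al_le hy.unit (em u))) hm.le
  have hmn : 0 ≤ m * ((n : ℝ) - 1) := mul_nonneg hm.le (by linarith)
  -- the norm of `u`
  have hs2 : s ≤ m * n + (n : ℝ) ^ χ' := by
    by_contra hcon
    push Not at hcon
    have h3 := e3 s hcon.le
    have h4 := h₁ u
    rw [← hs] at h4
    have h5 : (volume : Measure Ω).real {ω | D (env X ω) 0 u < m * n + 1} ≤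
        (volume : Measure Ω).real {ω | D (env X ω) 0 u < s - C₁ * (1 + s) ^ χ} := by
      refine measureReal_mono ?_
      intro ω hω
      have hω' : D (env X ω) 0 u < m * n + 1 := hω
      exact lt_of_lt_of_le hω' h3
    have h6 : (1 + s) ^ (-(22 : ℝ)) ≤ (1 + m * ((n : ℝ) - 1)) ^ (-(22 : ℝ)) :=
      Real.rpow_le_rpow_of_nonpos (by linarith) (by linarith) (by norm_num)
    have h7 := mul_le_mul_of_nonneg_left h6 hC₁.le
    linarith
  -- the tube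
  obtain ⟨K, hK⟩ : ∃ K, K = tube y (8 * n) ((n : ℝ) ^ (3 / 5 : ℝ)) := ⟨_, rfl⟩
  obtain ⟨hg, -⟩ := hGEO y hy.unit
  obtain ⟨h0K, hFc, -, hin, hout, -⟩ := hg (8 * n) ((n : ℝ) ^ (3 / 5 : ℝ)) (by positivity)
  have e2' := e2 u hu1 (by rw [← hs]; exact hs2)
  rw [← hK] at h0K hFc hin hout e2'
  obtain ⟨δ, hδ⟩ : ∃ δ : ℝ, δ = (n : ℝ) ^ (-(4 / 5) : ℝ) := ⟨_, rfl⟩
  have hδ0 : 0 < δ := by rw [hδ]; positivity
  have hδ1 : δ < 1 := by
    rw [hδ]
    exact Real.rpow_lt_one_of_one_lt_of_neg (by linarith) (by norm_num)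
  obtain ⟨c, hc⟩ : ∃ c : ℝ, c = 1 - δ := ⟨_, rfl⟩
  have hc0 : 0 < c := by rw [hc]; linarith
  have hsub : {ω | D (env X ω) 0 u < m * n + 1} ⊆
      {ω | D (sc (edg K) c (env X ω)) 0 u < c * (m * n + 1)} ∪
      {ω | ∃ z ∈ bd K, D (env X ω) 0 z + D (env X ω) z u < m * n + 1} ∪ {ω | ¬ ∀ e, 0 ≤ env X ω e} := by
    intro ω hω
    by_cases hneg : ∀ e, 0 ≤ env X ω e
    · left
      by_cases hE : ∃ z ∈ bd K, D (env X ω) 0 z + D (env X ω) z u < m * n + 1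
      · right; exact hE
      · left
        push Not at hE
        exact hEXO (env X ω) hneg K (edg K) c (m * n + 1) u hc0 h0K hin
          (fun a ha z hz haz => hE z (hout a ha z hz haz)) hω
    · right; exact hneg
  have h3 := sub3 (null_neg hX) hsub
  obtain ⟨pB, hpB⟩ : ∃ pB, pB = (volume : Measure Ω).real {ω | D (sc (edg K) c (env X ω)) 0 u < c * (m * n + 1)} := ⟨_, rfl⟩
  rw [← hpB] at h3
  have h4 : (n : ℝ) ^ (-(22 : ℝ)) ≤ (n : ℝ) ^ (-(21 : ℝ)) / 2 := by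
    have e : (n : ℝ) ^ (-(22 : ℝ)) = (n : ℝ) ^ (-(21 : ℝ)) * (n : ℝ) ^ (-1 : ℝ) := by
      rw [← Real.rpow_add hn0]
      norm_num
    rw [e, Real.rpow_neg_one, div_eq_mul_inv]
    apply mul_le_mul_of_nonneg_left _ (by positivity)
    exact inv_anti₀ (by norm_num) hn2r
  have h5 : (n : ℝ) ^ (-(21 : ℝ)) / 2 ≤ pB := by linarith
  have h6 := (hCMD Ω X hX (edg K) c hc0 (by rw [hc]; linarith) u (c * (m * n + 1))).2
  rw [← hpB] at h6
  have h7 : (1 / (c * (2 - c))) ^ (edg K).card ≤ Real.exp 680 := by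
    have e : c * (2 - c) = 1 - ((n : ℝ) ^ (-(4 / 5) : ℝ)) ^ 2 := by
      rw [hc, ← hδ]
      ring
    rw [e]
    exact dens hn2 hFc
  have h8 : (volume : Measure Ω).real {ω | D (env X ω) 0 u < c * (m * n + 1)} ≤
      C₂ * (1 + m * ((n : ℝ) - 1)) ^ (-(43 : ℝ)) := by
    have h9 := e4 s hs1 hs2
    rw [← hδ, ← hc] at h9
    have h10 : (volume : Measure Ω).real {ω | D (env X ω) 0 u < c * (m * n + 1)} ≤
        (volume : Measure Ω).real {ω | D (env X ω) 0 u < s - C₂ * (1 + s) ^ χ} := by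
      refine measureReal_mono ?_
      intro ω hω
      have hω' : D (env X ω) 0 u < c * (m * n + 1) := hω
      exact lt_of_lt_of_le hω' h9
    have h11 := h₂ u
    rw [← hs] at h11
    have h12 : (1 + s) ^ (-(43 : ℝ)) ≤ (1 + m * ((n : ℝ) - 1)) ^ (-(43 : ℝ)) :=
      Real.rpow_le_rpow_of_nonpos (by linarith) (by linarith) (by norm_num)
    have h13 := mul_le_mul_of_nonneg_left h12 hC₂.le
    linarith
  have h9 : pB ^ 2 ≤ Real.exp 680 * (C₂ * (1 + m * ((n : ℝ) - 1)) ^ (-(43 : ℝ))) := by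
    refine h6.trans ?_
    exact mul_le_mul h7 h8 measureReal_nonneg (Real.exp_pos _).le
  have h10 : ((n : ℝ) ^ (-(21 : ℝ)) / 2) ^ 2 ≤ pB ^ 2 := pow_le_pow_left₀ (by positivity) h5 2
  have h11 : ((n : ℝ) ^ (-(21 : ℝ)) / 2) ^ 2 = (n : ℝ) ^ (-(42 : ℝ)) / 4 := by
    rw [div_pow, ← Real.rpow_natCast, ← Real.rpow_mul hn0.le]
    norm_num
  rw [h11] at h10
  linarith

end Run7.h376.FP
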