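import Pool.Agent.Run7.h376.FP.Gen

/-!
# Project FP (helper943): piece POLY
-/

set_option autoImplicit false
open MeasureTheory ProbabilityTheory Filter Set
open scoped ENNReal Pointwise Topology

namespace Run7.h376.FP

open Pool.Agent.N662.FP Run7.h943.FP

theorem t_POLY (hSPL : S_SPL) (hHALF : S_HALF) (hLIM : S_LIM) (hRT : S_RT) : S_POLY := by
  intro Ω _ _ X hX μ hG hTC y m hy
  have hm := hy.pos
  obtain ⟨C', t1, hC', ht1, hS⟩ := hSPL Ω X hX μ hG y m hy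
  obtain ⟨t0, -, hH⟩ := hHALF Ω X hX μ hG y m hy
  obtain ⟨C, hC, hev⟩ := hRT (Q X y) m t0 hm
    (by
      rintro N t t' htt ⟨Z, hZ1, hZ2⟩
      refine ⟨Z, hZ1, hZ2.trans (measureReal_mono ?_)⟩
      intro ω hω
      exact lt_of_lt_of_le hω htt)
    (fun n t hn ht hQ => hH n t hn ht hQ)
    (fun η hη => hLIM Ω X hX μ hTC y m hy η hη)
  have ht5 : Tendsto (fun n : ℕ => (n : ℝ) ^ 5) atTop atTop :=
    (tendsto_pow_atTop (by norm_num)).comp tendsto_natCast_atTop_atTop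
  have hev5 := ht5.eventually hev
  have ht4 : Tendsto (fun n : ℕ => (n : ℝ) ^ (1 / 4 : ℝ)) atTop atTop :=
    (tendsto_rpow_atTop (by norm_num)).comp tendsto_natCast_atTop_atTop
  have hg := tendsto_natCast_atTop_atTop (R := ℝ)
  filter_upwards [hev5, ht4.eventually_ge_atTop C, hg.eventually_ge_atTop 1,
    hg.eventually_ge_atTop (t1 / m), hg.eventually_ge_atTop (C' * (m + C) ^ 4)] with n hQ hn4 hn1 hn2 hn3
  have hn0 : (0 : ℝ) < n := by linarith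
  obtain ⟨r, hr⟩ : ∃ r, r = (n : ℝ) ^ (1 / 4 : ℝ) := ⟨_, rfl⟩
  rw [← hr] at hn4
  have hr1 : 1 ≤ r := by rw [hr]; exact Real.one_le_rpow hn1 (by norm_num)
  have hr0 : 0 < r := by linarith
  have hrn : r ^ 4 = n := by
    rw [hr, ← Real.rpow_natCast, ← Real.rpow_mul hn0.le]
    norm_num
  have e1 : ((n : ℝ) ^ 5) ^ (3 / 4 : ℝ) = r ^ 15 := by
    rw [hr, ← Real.rpow_natCast, ← Real.rpow_natCast, ← Real.rpow_mul hn0.le, ← Real.rpow_mul hn0.le]
    norm_num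
  rw [e1] at hQ
  obtain ⟨t, ht⟩ : ∃ t, t = m * (n : ℝ) ^ 5 + C * r ^ 15 := ⟨_, rfl⟩
  rw [← ht] at hQ
  have h15 : r ^ 15 ≤ (n : ℝ) ^ 5 := by
    rw [← hrn, ← pow_mul]
    exact pow_le_pow_right₀ hr1 (by norm_num)
  have htn : (n : ℝ) ≤ (n : ℝ) ^ 5 := le_self_pow₀ hn1 (by norm_num)
  have htt : t1 ≤ t := by
    rw [div_le_iff₀ hm] at hn2
    have h1 : (n : ℝ) * m ≤ (n : ℝ) ^ 5 * m := mul_le_mul_of_nonneg_right htn hm.le
    have h2 : 0 ≤ C * r ^ 15 := by positivity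
    rw [ht]
    linarith
  obtain ⟨u, hu1, hu2⟩ := hS (n ^ 4) n t (Nat.one_le_pow _ _ (by exact_mod_cast hn0)) hn1 htt (by
    have : ((n ^ 4 : ℕ) : ℝ) * n = (n : ℝ) ^ 5 := by push_cast; ring
    rw [this]
    exact hQ)
  refine ⟨u, hu1, ?_⟩
  have h3 : 1 / (C' * t ^ 4) ≤ (volume : Measure Ω).real {ω | D (env X ω) 0 u < m * n + 1} := by
    refine hu2.trans (measureReal_mono ?_)
    intro ω hω
    have hω' : D (env X ω) 0 u < t / ((n ^ 4 : ℕ) : ℝ) := hω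
    show D (env X ω) 0 u < m * n + 1
    refine lt_of_lt_of_le hω' ?_
    have h4 : (0 : ℝ) < ((n ^ 4 : ℕ) : ℝ) := by push_cast; positivity
    rw [div_le_iff₀ h4, ht]
    push_cast
    have h5 : C * r ^ 15 ≤ (n : ℝ) ^ 4 := by
      calc C * r ^ 15 ≤ r * r ^ 15 := mul_le_mul_of_nonneg_right hn4 (by positivity)
        _ = (r ^ 4) ^ 4 := by ring
        _ = (n : ℝ) ^ 4 := by rw [hrn]
    linarith [(by ring : (m * (n : ℝ) + 1) * (n : ℝ) ^ 4 = m * (n : ℝ) ^ 5 + (n : ℝ) ^ 4)]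
  refine le_trans ?_ h3
  rw [Real.rpow_neg hn0.le]
  have h6 : (n : ℝ) ^ (21 : ℝ) = (n : ℝ) ^ 21 := by
    rw [← Real.rpow_natCast]
    norm_num
  rw [h6, ← one_div]
  have ht0 : 0 < t := by
    rw [ht]
    positivity
  apply one_div_le_one_div_of_le (by positivity)
  have h7 : t ≤ (m + C) * (n : ℝ) ^ 5 := by
    rw [ht, add_mul]
    have := mul_le_mul_of_nonneg_left h15 hC.le
    linarith
  calc C' * t ^ 4 ≤ C' * ((m + C) * (n : ℝ) ^ 5) ^ 4 := by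
        apply mul_le_mul_of_nonneg_left _ (by linarith)
        exact pow_le_pow_left₀ ht0.le h7 4
    _ = C' * (m + C) ^ 4 * (n : ℝ) ^ 20 := by ring
    _ ≤ n * (n : ℝ) ^ 20 := mul_le_mul_of_nonneg_right hn3 (by positivity)
    _ = (n : ℝ) ^ 21 := by ring

end Run7.h376.FP
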