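import Pool.Agent.Run7.h376.FP.Gen

/-!
# Project FP (helper943): piece SPL
-/

set_option autoImplicit false
open MeasureTheory ProbabilityTheory Filter Set
open scoped ENNReal Pointwise Topology

namespace Run7.h376.FP

open Pool.Agent.N662.FP Run7.h943.FP

theorem t_SPL (hSPD : S_SPD) (hLOW : S_LOW) (hTRL : S_TRL) : S_SPL := by
  intro Ω _ _ X hX μ hG y m hy
  have hm := hy.pos
  obtain ⟨t1, ht1⟩ := eventually_atTop.1 (evt_exp ((8 / m + 5) ^ 2))
  refine ⟨4 * (16 / m + 5) ^ 4, max t1 1, ?_, le_max_right _ _, ?_⟩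
  · have h1 : (1 : ℝ) ≤ (16 / m + 5) ^ 4 := one_le_pow₀ (by
      have : 0 < 16 / m := by positivity
      linarith)
    linarith
  intro M n t hM hn ht hQ
  have htt1 : t1 ≤ t := (le_max_left _ _).trans ht
  have ht1' : 1 ≤ t := (le_max_right _ _).trans ht
  have ht0 : 0 < t := by linarith
  obtain ⟨Z, hZ1, hZ2⟩ := hQ
  obtain ⟨R, hR⟩ : ∃ R : ℕ, R = ⌈4 * t / m⌉₊ := ⟨_, rfl⟩
  have hR1 : 4 * t / m ≤ R := by rw [hR]; exact Nat.le_ceil _
  have hR2 : (R : ℝ) ≤ 4 * t / m + 1 := by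
    rw [hR]
    exact (Nat.ceil_lt_add_one (by positivity)).le
  have hmt : 4 * t / m = 4 / m * t := by ring
  -- the first bad event
  obtain ⟨E1, hE1⟩ : ∃ E1 : Set Ω, E1 = ⋃ z ∈ (box (R + 1)).filter (fun z => z ∉ box R), {ω | D (env X ω) 0 z < t} :=
    ⟨_, rfl⟩
  have hE1p : (volume : Measure Ω).real E1 ≤ 1 / 4 := by
    rw [hE1]
    refine (measureReal_biUnion_finset_le _ _).trans ?_
    have h1 : ∀ z ∈ (box (R + 1)).filter (fun z => z ∉ box R),
        (volume : Measure Ω).real {ω | D (env X ω) 0 z < t} ≤ Real.exp (1 - t / 8) := by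
      intro z hz
      rw [Finset.mem_filter] at hz
      have h2 := eu_ge hz.2
      have h3 := hy.ge (em z)
      have h4 : 4 * t ≤ μ (em z) := by
        refine le_trans ?_ h3
        have h5 : 4 * t / m ≤ eu (em z) := by linarith
        rw [div_le_iff₀ hm] at h5
        linarith
      have h5 : 0 < μ (em z) := by linarith
      have h6 := hLOW Ω X hX μ hG z (μ (em z) / 2) h5 (by linarith) (by linarith)
      have h7 : (volume : Measure Ω).real {ω | D (env X ω) 0 z < t} ≤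
          (volume : Measure Ω).real {ω | D (env X ω) 0 z < μ (em z) - μ (em z) / 2} := by
        refine measureReal_mono ?_
        intro ω hω
        have hω' : D (env X ω) 0 z < t := hω
        show D (env X ω) 0 z < μ (em z) - μ (em z) / 2
        linarith
      refine h7.trans (h6.trans ?_)
      apply Real.exp_le_exp.2
      have h8 : (μ (em z) / 2) ^ 2 / (8 * μ (em z)) = μ (em z) / 32 := by
        field_simp
        norm_num
      rw [h8]
      linarith
    refine (Finset.sum_le_sum h1).trans ?_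
    rw [Finset.sum_const, nsmul_eq_mul]
    have h2 : (((box (R + 1)).filter (fun z => z ∉ box R)).card : ℝ) ≤ (8 / m + 5) ^ 2 * t ^ 2 := by
      have h3 : ((box (R + 1)).filter (fun z => z ∉ box R)).card ≤ (2 * (R + 1) + 1) ^ 2 := by
        rw [← box_card]
        exact Finset.card_filter_le _ _
      have h4 : (((box (R + 1)).filter (fun z => z ∉ box R)).card : ℝ) ≤ (2 * ((R : ℝ) + 1) + 1) ^ 2 := by
        exact_mod_cast h3
      refine h4.trans ?_
      rw [← mul_pow]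
      apply pow_le_pow_left₀ (by positivity)
      have h5 : 8 / m * t = 2 * (4 * t / m) := by ring
      rw [add_mul, h5]
      linarith
    refine (mul_le_mul_of_nonneg_right h2 (Real.exp_pos _).le).trans ?_
    exact ht1 t htt1
  -- the good event
  obtain ⟨S, hS⟩ : ∃ S : Finset (ℤ × ℤ), S = (box (2 * R)).filter (fun u => n - 1 ≤ al y (em u)) := by
    classical
    exact ⟨_, rfl⟩
  obtain ⟨G, hGd⟩ : ∃ G : Set Ω, G = ⋃ a ∈ box R, ⋃ u ∈ S, {ω | D (env X ω) a (a + u) < t / M} := ⟨_, rfl⟩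
  have hsub : {ω | D (env X ω) 0 Z < t} ⊆ G ∪ E1 ∪ {ω | ¬ ∀ e, 0 ≤ env X ω e} := by
    intro ω hω
    by_cases hneg : ∀ e, 0 ≤ env X ω e
    · left
      by_cases hE : ω ∈ E1
      · right; exact hE
      · left
        have h1 : ∀ z ∈ box (R + 1), z ∉ box R → t ≤ D (env X ω) 0 z := by
          intro z hz1 hz2
          by_contra hcon
          apply hE
          rw [hE1]
          simp only [mem_iUnion]
          exact ⟨z, Finset.mem_filter.2 ⟨hz1, hz2⟩, not_le.1 hcon⟩
        obtain ⟨a, ha, u, hu, hu1, hu2⟩ := hSPD (env X ω) hneg y hy.unit M R n t Z hM hn hZ1 hω h1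
        rw [hGd]
        simp only [mem_iUnion]
        refine ⟨a, ha, u, ?_, hu2⟩
        rw [hS, Finset.mem_filter]
        exact ⟨hu, hu1⟩
    · right; exact hneg
  have hGp : 1 / 4 ≤ (volume : Measure Ω).real G := by
    have := sub3 (null_neg hX) hsub
    linarith
  -- the union bound
  have hsum : (volume : Measure Ω).real G ≤ ∑ a ∈ box R, ∑ u ∈ S, (volume : Measure Ω).real {ω | D (env X ω) 0 u < t / M} := by
    rw [hGd]
    refine (measureReal_biUnion_finset_le _ _).trans ?_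
    refine Finset.sum_le_sum fun a _ => ?_
    refine (measureReal_biUnion_finset_le _ _).trans ?_
    refine Finset.sum_le_sum fun u _ => ?_
    exact le_of_eq (hTRL Ω X hX a u (t / M)).1
  by_contra hcon
  push Not at hcon
  have hC : 4 * ((2 * (R : ℝ) + 1) ^ 2 * (2 * (2 * (R : ℝ)) + 1) ^ 2) ≤ 4 * (16 / m + 5) ^ 4 * t ^ 4 := by
    have h1 : 2 * (2 * (R : ℝ)) + 1 ≤ (16 / m + 5) * t := by
      have h5 : 16 / m * t = 4 * (4 * t / m) := by ring
      rw [add_mul, h5]
      linarith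
    have h2 : 2 * (R : ℝ) + 1 ≤ (16 / m + 5) * t := by
      have : (0 : ℝ) ≤ R := Nat.cast_nonneg _
      linarith
    have h3 : (2 * (R : ℝ) + 1) ^ 2 ≤ ((16 / m + 5) * t) ^ 2 := pow_le_pow_left₀ (by positivity) h2 2
    have h4 : (2 * (2 * (R : ℝ)) + 1) ^ 2 ≤ ((16 / m + 5) * t) ^ 2 := pow_le_pow_left₀ (by positivity) h1 2
    have h5 := mul_le_mul h3 h4 (by positivity) (by positivity)
    calc 4 * ((2 * (R : ℝ) + 1) ^ 2 * (2 * (2 * (R : ℝ)) + 1) ^ 2) ≤ 4 * (((16 / m + 5) * t) ^ 2 * ((16 / m + 5) * t) ^ 2) := by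
          linarith
      _ = _ := by ring
  have hp : ∀ u ∈ S, (volume : Measure Ω).real {ω | D (env X ω) 0 u < t / M} < 1 / (4 * (16 / m + 5) ^ 4 * t ^ 4) := by
    intro u hu
    rw [hS, Finset.mem_filter] at hu
    exact hcon u hu.2
  have hSc : (S.card : ℝ) ≤ (2 * (2 * (R : ℝ)) + 1) ^ 2 := by
    have h1 : S.card ≤ (2 * (2 * R) + 1) ^ 2 := by
      rw [hS, ← box_card]
      exact Finset.card_filter_le _ _
    exact_mod_cast h1
  have hR0 : (0 : ℝ) ≤ R := Nat.cast_nonneg _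
  have hm0 : 0 < 16 / m := by positivity
  have hCp : 0 < 4 * (16 / m + 5) ^ 4 * t ^ 4 := by positivity
  rcases S.eq_empty_or_nonempty with hSe | hSn
  · rw [hSe] at hsum
    simp only [Finset.sum_empty, Finset.sum_const_zero] at hsum
    linarith
  · have h1 : ∑ a ∈ box R, ∑ u ∈ S, (volume : Measure Ω).real {ω | D (env X ω) 0 u < t / M} <
        ∑ a ∈ box R, ∑ u ∈ S, 1 / (4 * (16 / m + 5) ^ 4 * t ^ 4) := by
      have hbn : (box R).Nonempty := by
        rw [← Finset.card_pos, box_card]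
        positivity
      exact Finset.sum_lt_sum_of_nonempty hbn fun a _ => Finset.sum_lt_sum_of_nonempty hSn hp
    have e1 : ∑ _a ∈ box R, ∑ _u ∈ S, 1 / (4 * (16 / m + 5) ^ 4 * t ^ 4) =
        (((2 * R + 1) ^ 2 : ℕ) : ℝ) * ((S.card : ℝ) * (1 / (4 * (16 / m + 5) ^ 4 * t ^ 4))) := by
      rw [Finset.sum_const, Finset.sum_const, nsmul_eq_mul, nsmul_eq_mul, box_card]
    rw [e1] at h1
    have h2 : (((2 * R + 1) ^ 2 : ℕ) : ℝ) * ((S.card : ℝ) * (1 / (4 * (16 / m + 5) ^ 4 * t ^ 4))) ≤ 1 / 4 := by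
      push_cast
      have h3 : (2 * (R : ℝ) + 1) ^ 2 * ((S.card : ℝ) * (1 / (4 * (16 / m + 5) ^ 4 * t ^ 4))) ≤
          (2 * (R : ℝ) + 1) ^ 2 * ((2 * (2 * (R : ℝ)) + 1) ^ 2 * (1 / (4 * (16 / m + 5) ^ 4 * t ^ 4))) := by
        gcongr
      refine h3.trans ?_
      rw [← mul_assoc, mul_one_div, div_le_iff₀ hCp]
      linarith
    linarith

end Run7.h376.FP
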